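import Pool.Agent.Lib.TATE.NI.Spec
import Pool.Agent.Lib.SE.X.xP
import Pool.Agent.Lib.SE.Z.zP

/-! # TATE NI, module Opn: the branch points as functions of `s` (helper42) -/

set_option autoImplicit false

open Topology Metric

noncomputable section

namespace TATE.NI

open HC HC.CC SEJ

namespace Opn_aux

theorem inj_open (p : ℕ) : IsOpen {s : Fin p → ℂ | Function.Injective s} := by
  have h : {s : Fin p → ℂ | Function.Injective s} =
      ⋂ q : {q : Fin p × Fin p // q.1 ≠ q.2}, {s : Fin p → ℂ | s q.1.1 ≠ s q.1.2} := by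
    ext s
    simp only [Set.mem_iInter, Set.mem_ofPred_eq]
    constructor
    · exact fun h q hq => q.2 (h hq)
    · intro h i j hij
      by_contra hne
      exact h ⟨(i, j), hne⟩ hij
  rw [h]
  exact isOpen_iInter_of_finite fun q => isOpen_ne_fun (continuous_apply _) (continuous_apply _)

end Opn_aux

open Opn_aux in
theorem tOpn : S_Opn := by
  intro p r i k hk
  obtain ⟨hi, hk⟩ := hk
  have hval : IsOpenMap (Subtype.val : {s : Fin p → ℂ // Function.Injective s} → _) :=
    (inj_open p).isOpenMap_subtype_val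
  cases k with
  | none =>
    have h1 : IsOpenMap (SEX.xP_aux.cm i) :=
      (SEX.xP_aux.cm i).isOpenMap (SEX.xP_aux.cm_surj hi)
    exact ⟨(SEX.xP_aux.cm i).continuous.comp continuous_subtype_val, h1.comp hval⟩
  | some l =>
    have hl : ∀ j, i j ≠ l := fun j => (hk l rfl j).ne
    have h1 : IsOpenMap (SEZ.zP_aux.df i l) :=
      (SEZ.zP_aux.df i l).isOpenMap (SEZ.zP_aux.df_surj hi hl)
    let g : {s : Fin p → ℂ // Function.Injective s} → SEZ.zP_aux.Un (r + 1) :=
      fun s => ⟨SEZ.zP_aux.df i l s.1, fun j => by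
        rw [SEZ.zP_aux.df_apply]
        exact sub_ne_zero.2 fun h => hl j (s.2 h)⟩
    have hg : Continuous g :=
      ((SEZ.zP_aux.df i l).continuous.comp continuous_subtype_val).subtype_mk _
    have hgo : IsOpenMap g := by
      intro U hU
      have h2 := (h1.comp hval) U hU
      have h3 : g '' U = Subtype.val ⁻¹' ((SEZ.zP_aux.df i l ∘ Subtype.val) '' U) := by
        ext y
        constructor
        · rintro ⟨s, hs, rfl⟩
          exact ⟨s, hs, rfl⟩
        · rintro ⟨s, hs, h⟩
          exact ⟨s, hs, Subtype.ext h⟩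
      rw [h3]
      exact h2.preimage continuous_subtype_val
    have e : (fun s : {s : Fin p → ℂ // Function.Injective s} => pt s.1 i (some l)) =
        Subtype.val ∘ (SEZ.zP_aux.ih (r + 1)) ∘ g := by
      funext s j
      rfl
    rw [e]
    exact ⟨continuous_subtype_val.comp ((SEZ.zP_aux.ih (r + 1)).continuous.comp hg),
      (SEZ.zP_aux.Un_open (r + 1)).isOpenMap_subtype_val.comp
        ((SEZ.zP_aux.ih (r + 1)).isOpenMap.comp hgo)⟩

end TATE.NI
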