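import Pool.Agent.Lib.TATE.NI.Spec

/-! # TATE NI, module Bai: the pairs of isogenous new parts are meagre (helper42) -/

set_option autoImplicit false

open Topology Metric

noncomputable section

namespace TATE.NI

open HC HC.CC SEJ

namespace Bai_aux

variable {m r : ℕ} {b : Fin (r + 1) → ℕ}

theorem lq (Φ : FamD m b) {t t' : Fin (r + 1) → ℂ} (ht : Function.Injective t)
    (ht' : t' ∈ ball t (Φ.ρ t)) (v : Ix m b → ℂ) : Φ.τ t t' v ∈ LQ m b t' ↔ v ∈ LQ m b t := by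
  have h : ∀ w : Ix m b → ℂ, Φ.τ t t' w ∈ LZ m b t' ↔ w ∈ LZ m b t := by
    intro w
    rw [← Φ.latZ t ht t' ht']
    constructor
    · rintro ⟨w', hw', h⟩
      rwa [(Φ.τ t t').injective h] at hw'
    · exact fun h => ⟨w, h, rfl⟩
  constructor
  · rintro ⟨k, hk, h1⟩
    refine ⟨k, hk, ?_⟩
    rw [← h, map_nsmul]
    exact h1
  · rintro ⟨k, hk, h1⟩
    refine ⟨k, hk, ?_⟩
    rw [← map_nsmul, h]
    exact h1

theorem nwd {X : Type} [TopologicalSpace X] {W K C : Set X} (hW : IsOpen W) (hK : IsClosed K)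
    (hC : C = W ∩ K) (hi : interior C = ∅) : IsNowhereDense C := by
  rw [IsNowhereDense, Set.eq_empty_iff_forall_notMem]
  intro x hx
  have h1 : closure C ⊆ K := by
    rw [hC]
    exact closure_minimal Set.inter_subset_right hK
  obtain ⟨y, hy, hyC⟩ := mem_closure_iff.1 (interior_subset hx) _ isOpen_interior hx
  have h2 : interior (closure C) ∩ W ⊆ C := by
    intro z hz
    rw [hC]
    exact ⟨hz.2, h1 (interior_subset hz.1)⟩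
  have h3 : y ∈ interior C := by
    refine interior_maximal h2 (isOpen_interior.inter hW) ⟨hy, ?_⟩
    rw [hC] at hyC
    exact hyC.1
  rw [hi] at h3
  exact h3

end Bai_aux

open Bai_aux in
theorem tBai : S_Cnt → S_Cls → S_Nwd → S_Bai := by
  intro hCnt hCls hNwd h1 h5 hCoc m r m' r' b b' hb hb' hn
  obtain ⟨Φ⟩ := h1 m r b hb
  obtain ⟨Φ'⟩ := h1 m' r' b' hb'
  set U : Set ((Fin (r + 1) → ℂ) × (Fin (r' + 1) → ℂ)) :=
    {x | Function.Injective x.1 ∧ Function.Injective x.2} with hU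
  let f : (Fin (r + 1) → ℂ) × (Fin (r' + 1) → ℂ) → Set ((Fin (r + 1) → ℂ) × (Fin (r' + 1) → ℂ)) :=
    fun x => ball x.1 (Φ.ρ x.1) ×ˢ ball x.2 (Φ'.ρ x.2)
  obtain ⟨T, hTU, hTc, hT⟩ := TopologicalSpace.countable_cover_nhdsWithin (s := U) (f := f)
    (fun x hx => mem_nhdsWithin_of_mem_nhds (prod_mem_nhds
      (ball_mem_nhds _ (Φ.rpos x.1 hx.1)) (ball_mem_nhds _ (Φ'.rpos x.2 hx.2))))
  have hbig : IsMeagre (⋃ x ∈ T, ⋃ Λ ∈ {Λ : (Ix m b → ℂ) ≃ₗ[ℝ] (Ix m' b' → ℂ) |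
      ∀ v ∈ LQ m b x.1, Λ v ∈ LQ m' b' x.2}, CL Φ Φ' x.1 x.2 Λ) := by
    refine isMeagre_biUnion hTc fun x hx => isMeagre_biUnion
      (hCnt _ _ _ _ (Φ.spn x.1 (hTU hx).1) (Φ'.cnt x.2 (hTU hx).2)) fun Λ _ => ?_
    obtain ⟨K, hK, hK'⟩ := hCls m r m' r' b b' Φ Φ' x.1 x.2 Λ (hTU hx).1 (hTU hx).2
    refine (nwd ?_ hK hK' (hNwd h5 hCoc m r m' r' b b' Φ Φ' x.1 x.2 Λ hb hn (hTU hx).1)).isMeagre
    exact (isOpen_ball.preimage continuous_fst).inter (isOpen_ball.preimage continuous_snd)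
  refine hbig.mono ?_
  rintro y ⟨hy1, hy2, φ, hφ⟩
  obtain ⟨x, hxT, hxy⟩ := Set.mem_iUnion₂.1 (hT (show y ∈ U from ⟨hy1, hy2⟩))
  have hx := hTU hxT
  let Λ : (Ix m b → ℂ) ≃ₗ[ℝ] (Ix m' b' → ℂ) :=
    (Φ.τ x.1 y.1).trans ((φ.restrictScalars ℝ).trans (Φ'.τ x.2 y.2).symm)
  have hΛ : ∀ v, Λ v = (Φ'.τ x.2 y.2).symm (φ (Φ.τ x.1 y.1 v)) := fun v => rfl
  refine Set.mem_iUnion₂.2 ⟨x, hxT, Set.mem_iUnion₂.2 ⟨Λ, ?_, hxy.1, hxy.2, fun v => ?_⟩⟩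
  · intro v hv
    rw [← lq Φ' hx.2 hxy.2, hΛ, LinearEquiv.apply_symm_apply, ← hφ]
    exact ⟨_, (lq Φ hx.1 hxy.1 v).2 hv, rfl⟩
  · rw [hΛ]
    unfold Jt
    rw [hΛ, LinearEquiv.apply_symm_apply, LinearEquiv.apply_symm_apply, map_smul]

end TATE.NI
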