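import Pool.Agent.Lib.TATE.NI.Spec

/-! # TATE NI, module Cls: `CL` is relatively closed (helper42) -/

set_option autoImplicit false

open Topology Metric

noncomputable section

namespace TATE.NI

open HC HC.CC SEJ

namespace Cls_aux

variable {m r : ℕ} {b : Fin (r + 1) → ℕ}

/-- the domain -/
def Wd {r r' : ℕ} (t₀ : Fin (r + 1) → ℂ) (ρ : ℝ) (t₀' : Fin (r' + 1) → ℂ) (ρ' : ℝ) :
    Set ((Fin (r + 1) → ℂ) × (Fin (r' + 1) → ℂ)) :=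
  {x | x.1 ∈ ball t₀ ρ ∧ x.2 ∈ ball t₀' ρ'}

theorem Wd_open {r r' : ℕ} (t₀ : Fin (r + 1) → ℂ) (ρ : ℝ) (t₀' : Fin (r' + 1) → ℂ) (ρ' : ℝ) :
    IsOpen (Wd t₀ ρ t₀' ρ') :=
  (isOpen_ball.preimage continuous_fst).inter (isOpen_ball.preimage continuous_snd)

theorem cont_J (hInv : S_Inv) {X : Type} [TopologicalSpace X] (Φ : FamD m b)
    {t₀ : Fin (r + 1) → ℂ} (h₀ : Function.Injective t₀) {B : Set X}
    {π : X → (Fin (r + 1) → ℂ)} (hπ : ContinuousOn π B)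
    (hB : ∀ x ∈ B, π x ∈ ball t₀ (Φ.ρ t₀)) (v : Ix m b → ℂ) :
    ContinuousOn (fun x => Jt Φ t₀ (π x) v) B := by
  have h1 : ∀ v, ContinuousOn (fun x => Φ.τ t₀ (π x) v) B := fun v =>
    (Φ.hol t₀ h₀ v).continuousOn.comp hπ hB
  exact hInv X _ _ B (fun x => Φ.τ t₀ (π x)) h1 (fun x => Complex.I • Φ.τ t₀ (π x) v)
    ((h1 v).const_smul Complex.I)

end Cls_aux

open Cls_aux in
theorem tCls : S_Inv → S_Cls := by
  intro hInv m r m' r' b b' Φ Φ' t₀ t₀' Λ h₀ h₀'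
  refine ⟨closure (CL Φ Φ' t₀ t₀' Λ), isClosed_closure, ?_⟩
  have hL : Continuous Λ := (Λ : (Ix m b → ℂ) →ₗ[ℝ] (Ix m' b' → ℂ)).continuous_of_finiteDimensional
  apply Set.Subset.antisymm
  · intro x hx
    exact ⟨⟨hx.1, hx.2.1⟩, subset_closure hx⟩
  · rintro x ⟨hx, hxc⟩
    refine ⟨hx.1, hx.2, fun v => ?_⟩
    have h1 : ContinuousOn (fun x : (Fin (r + 1) → ℂ) × (Fin (r' + 1) → ℂ) =>
        Λ (Jt Φ t₀ x.1 v) - Jt Φ' t₀' x.2 (Λ v)) (Wd t₀ (Φ.ρ t₀) t₀' (Φ'.ρ t₀')) := by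
      refine ContinuousOn.sub ?_ ?_
      · exact hL.comp_continuousOn (cont_J hInv Φ h₀ continuous_fst.continuousOn
          (fun x hx => hx.1) v)
      · exact cont_J hInv Φ' h₀' continuous_snd.continuousOn (fun x hx => hx.2) (Λ v)
    have h2 : ContinuousWithinAt (fun x : (Fin (r + 1) → ℂ) × (Fin (r' + 1) → ℂ) =>
        Λ (Jt Φ t₀ x.1 v) - Jt Φ' t₀' x.2 (Λ v)) (CL Φ Φ' t₀ t₀' Λ) x :=
      (h1 x hx).mono fun y hy => ⟨hy.1, hy.2.1⟩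
    have h3 := h2.mem_closure_image hxc
    have h4 : (fun x : (Fin (r + 1) → ℂ) × (Fin (r' + 1) → ℂ) =>
        Λ (Jt Φ t₀ x.1 v) - Jt Φ' t₀' x.2 (Λ v)) '' CL Φ Φ' t₀ t₀' Λ ⊆ {0} := by
      rintro _ ⟨y, hy, rfl⟩
      exact sub_eq_zero.2 (hy.2.2 v)
    have h5 := closure_mono h4 h3
    rw [closure_singleton] at h5
    exact sub_eq_zero.1 h5

end TATE.NI
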