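import Pool.Agent.Lib.TATE.NI.Spec

/-! # TATE NI, module Cnt: countably many lattice maps (helper42) -/

set_option autoImplicit false

noncomputable section

namespace TATE.NI

theorem tCnt : S_Cnt := by
  intro V V' _ _ _ _ _ L L' hL hL'
  obtain ⟨t, ht, hsp, hli⟩ := exists_linearIndependent ℝ L
  have htf : t.Finite := hli.setFinite
  have hfin : Finite t := htf
  have hcL : Countable L' := hL'
  have hspt : Submodule.span ℝ t = ⊤ := by
    rw [hsp, hL]
  let F : {Λ : V ≃ₗ[ℝ] V' | ∀ v ∈ L, Λ v ∈ L'} → (t → L') :=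
    fun Λ v => ⟨Λ.1 v.1, Λ.2 v.1 (ht v.2)⟩
  have hF : Function.Injective F := by
    intro Λ Λ' h
    apply Subtype.ext
    have h1 : Set.EqOn (Λ.1 : V →ₗ[ℝ] V') (Λ'.1 : V →ₗ[ℝ] V') t := fun v hv =>
      congrArg Subtype.val (congrFun h ⟨v, hv⟩)
    have h2 := LinearMap.ext_on hspt h1
    ext v
    exact LinearMap.congr_fun h2 v
  exact Set.countable_coe_iff.1 hF.countable

end TATE.NI
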