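import Pool.Agent.Lib.TATE.NI.Spec

/-! # TATE NI, module Ni: the result (helper42) -/

set_option autoImplicit false

open Topology Metric

noncomputable section

namespace TATE.NI

open HC HC.CC SEJ

namespace Ni_aux

theorem pt_inj {p r : ℕ} {i : Fin (r + 1) → Fin p} {k : Option (Fin p)} (h : Ok i k)
    {s : Fin p → ℂ} (hs : Function.Injective s) : Function.Injective (pt s i k) := by
  cases k with
  | none => exact hs.comp h.1
  | some l =>
    intro j j' hj
    have h1 : (s (i j) - s l)⁻¹ = (s (i j') - s l)⁻¹ := hj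
    exact h.1 (hs (sub_left_injective (inv_injective h1)))

end Ni_aux

open Ni_aux in
theorem tNi : S_Bai → S_Opn → S_Ni := by
  intro hBai hOpn h1 h5 hCoc m r m' r' b b' hb hb' hn p i k i' k' hi hi'
  have hI := hBai h1 h5 hCoc m r m' r' b b' hb hb' hn
  obtain ⟨c, o⟩ := hOpn p r i k hi
  obtain ⟨c', o'⟩ := hOpn p r' i' k' hi'
  have h2 := hI.preimage_of_isOpenMap (c.prodMap c') (o.prodMap o')
  have h3 := (Topology.IsInducing.subtypeVal.prodMap
    Topology.IsInducing.subtypeVal).isMeagre_image h2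
  refine h3.mono ?_
  rintro ⟨x, y⟩ ⟨hx, hy, φ, hφ⟩
  exact ⟨(⟨x, hx⟩, ⟨y, hy⟩), ⟨pt_inj hi hx, pt_inj hi' hy, φ, hφ⟩, rfl⟩

end TATE.NI
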