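import Pool.Agent.Lib.TATE.NI.Spec

/-! # TATE NI, module Nwd: `CL` has no interior points (helper42) -/

set_option autoImplicit false

open Topology Metric

noncomputable section

namespace TATE.NI

open HC HC.CC SEJ

theorem tNwd : S_Nwd := by
  intro h5 hC m r m' r' b b' Φ Φ' t₀ t₀' Λ hb hn h₀
  rw [Set.eq_empty_iff_forall_notMem]
  intro x hx
  have hxm := interior_subset hx
  obtain ⟨δ, hδ, hδ'⟩ := hC m r b Φ hb t₀ h₀ x.1 hxm.1
  obtain ⟨ε, hε, hε'⟩ := Metric.isOpen_iff.1 isOpen_interior x hx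
  have hinj : Function.Injective x.1 := Φ.dom t₀ h₀ x.1 hxm.1
  obtain ⟨t₂, ⟨h2, h2'⟩, v, hv⟩ := h5 m r b Φ hb hn x.1 hinj (min δ ε) (lt_min hδ hε)
  have h2δ : t₂ ∈ ball x.1 δ := ball_subset_ball (min_le_left _ _) h2
  have h2ε : t₂ ∈ ball x.1 ε := ball_subset_ball (min_le_right _ _) h2
  obtain ⟨ha, hb', hc⟩ := hδ' t₂ h2δ
  have h3 : (t₂, x.2) ∈ CL Φ Φ' t₀ t₀' Λ := by
    refine interior_subset (hε' ?_)
    rw [Metric.mem_ball, Prod.dist_eq, dist_self]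
    exact max_lt (Metric.mem_ball.1 h2ε) hε
  set w := (Φ.τ t₀ x.1).symm v with hw
  have hw' : Φ.τ t₀ x.1 w = v := (Φ.τ t₀ x.1).apply_symm_apply v
  have e1 := hxm.2.2 w
  have e2 := h3.2.2 w
  have e3 : Jt Φ t₀ x.1 w = Jt Φ t₀ t₂ w := Λ.injective (e1.trans e2.symm)
  apply hv
  have e4 : Φ.τ t₀ t₂ (Jt Φ t₀ x.1 w) = Φ.τ x.1 t₂ (Complex.I • v) := by
    rw [hc]
    unfold Jt
    rw [LinearEquiv.apply_symm_apply, hw']
  have e5 : Φ.τ t₀ t₂ (Jt Φ t₀ t₂ w) = Complex.I • Φ.τ x.1 t₂ v := by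
    unfold Jt
    rw [LinearEquiv.apply_symm_apply, hc, hw']
  rw [← e4, e3, e5]

end TATE.NI
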