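import Pool.Agent.Lib.TATE.NI.Inv
import Pool.Agent.Lib.TATE.NI.Cnt
import Pool.Agent.Lib.TATE.NI.Cls
import Pool.Agent.Lib.TATE.NI.Nwd
import Pool.Agent.Lib.TATE.NI.Bai
import Pool.Agent.Lib.TATE.NI.Opn
import Pool.Agent.Lib.TATE.NI.Ni

/-!
# PROJECT TATE, package NI: assembly (helper42)
-/

set_option autoImplicit false

namespace TATE.NI

/-- From `StmtFA1`, `StmtFA5`, `Coc`: the pairs of isogenous new parts at `s` and at `s'` are meagre. -/
theorem ni : S_Ni := tNi (tBai tCnt (tCls tInv) tNwd) tOpn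

end TATE.NI
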