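import Pool.Agent.Lib.TATE.NI.Spec

/-! # TATE NI, module Inv: continuity of the inverse (helper42) -/

set_option autoImplicit false

open Topology Metric

noncomputable section

namespace TATE.NI

theorem tInv : S_Inv := by
  intro X V V' _ _ _ _ _ _ _ B τ hτ u hu
  have hcV : CompleteSpace V := FiniteDimensional.complete ℝ V
  let A : X → (V →L[ℝ] V') := fun x => ((τ x).toContinuousLinearEquiv : V →L[ℝ] V')
  have h1 : ContinuousOn A B := by
    rw [continuousOn_clm_apply]
    intro v
    exact hτ v
  intro x hx
  have h2 : ContinuousAt (ContinuousLinearMap.inverse : (V →L[ℝ] V') → (V' →L[ℝ] V)) (A x) :=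
    (contDiffAt_map_inverse (𝕜 := ℝ) (n := 0) (τ x).toContinuousLinearEquiv).continuousAt
  have h3 : ContinuousWithinAt (fun x => ContinuousLinearMap.inverse (A x)) B x :=
    h2.comp_continuousWithinAt (h1 x hx)
  have h4 := h3.clm_apply (hu x hx)
  have e : ∀ y, (τ y).symm (u y) = ContinuousLinearMap.inverse (A y) (u y) := by
    intro y
    change _ = ContinuousLinearMap.inverse ((τ y).toContinuousLinearEquiv : V →L[ℝ] V') (u y)
    rw [ContinuousLinearMap.inverse_equiv]
    rfl
  exact h4.congr (fun y _ => e y) (e x)

end TATE.NI
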