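import Pool.Agent.Lib.TATE.Iface

/-!
# PROJECT TATE, package NI: no isogenies between the factors at `s` and at `s'` (helper42)

For `(s, s')` outside a meagre set no new part at `s` is isogenous to a new part at `s'`: the period map of the
first one is nowhere constant (`StmtFA5`).

Every module: file `TATE/NI/Xyz.lean`, `theorem tXyz : S_Xyz`, namespace `TATE.NI`, import
`Pool.Agent.Lib.TATE.NI.Spec` and the proved files you want. If the docstring says `From S_A, S_B` the theorem is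
`tXyz : S_A → S_B → S_Xyz`. Auxiliary lemmas in `namespace TATE.NI.Xyz_aux`.
-/

set_option autoImplicit false

open Topology Metric

noncomputable section

namespace TATE.NI

open HC HC.CC SEJ

/-- The cocycle condition (proved in TATE/LZ: `TATE.LZ.S_Coc`, the same statement). -/
def Coc : Prop :=
  ∀ (m r : ℕ) (b : Fin (r + 1) → ℕ) (Φ : FamD m b), Cvb m b → ∀ t, Function.Injective t →
    ∀ t₁ ∈ ball t (Φ.ρ t), ∃ δ > 0, ∀ t₂ ∈ ball t₁ δ, t₂ ∈ ball t (Φ.ρ t) ∧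
      t₂ ∈ ball t₁ (Φ.ρ t₁) ∧ ∀ v, Φ.τ t t₂ v = Φ.τ t₁ t₂ (Φ.τ t t₁ v)

/-- A signature `(d, r - d)`, `0 < d < r` (the hypothesis of `StmtFA5`). -/
def Ncs (m : ℕ) {r : ℕ} (b : Fin (r + 1) → ℕ) : Prop :=
  ∃ u < m, u.Coprime m ∧
    0 < (Finset.univ.filter fun i : Fin r => m * i.1 + ∑ j, (u * b j) % m < m * r).card ∧
    (Finset.univ.filter fun i : Fin r => m * i.1 + ∑ j, (u * b j) % m < m * r).card < r

/-- The condition on the indices in `IsGd`, `IsBn`. -/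
def Ok {p r : ℕ} (i : Fin (r + 1) → Fin p) (k : Option (Fin p)) : Prop :=
  Function.Injective i ∧ ∀ l, k = some l → ∀ j, i j < l

/-- **Inv**: CONTINUITY OF THE INVERSE. PROOF. In a real basis of `V` the matrix `A(x)` of `τ x` followed by a fixed isomorphism
`V' ≃ V` is continuous on `B`, its determinant is not `0`, so `A(x)⁻¹` (`Ring.inverse`, `Matrix.inv`: adjugate / determinant)
is continuous, and `(τ x).symm (u x) = A(x)⁻¹ (coordinates of u x)`. (Or: `LinearMap.toContinuousLinearMap`,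
`x ↦ τ x` is continuous into `V →L[ℝ] V'` because `V` is finite dimensional, and `ContinuousLinearEquiv` inversion is continuous:
`contDiffAt_map_inverse`, `ContinuousLinearMap.inverse`.) -/
def S_Inv : Prop :=
  ∀ (X V V' : Type) [TopologicalSpace X] [NormedAddCommGroup V] [NormedSpace ℝ V]
    [FiniteDimensional ℝ V] [NormedAddCommGroup V'] [NormedSpace ℝ V'] [FiniteDimensional ℝ V']
    (B : Set X) (τ : X → (V ≃ₗ[ℝ] V')), (∀ v, ContinuousOn (fun x => τ x v) B) →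
    ∀ u : X → V', ContinuousOn u B → ContinuousOn (fun x => (τ x).symm (u x)) B

/-- **Cnt**: COUNTABLY MANY LATTICE MAPS. PROOF. `L` spans `V`, so it contains a finite real basis `v_1, …, v_n`
(`exists_linearIndependent`, `Module.Basis.extend`/`Basis.ofSpan`); `Λ ↦ (Λ v_j)_j ∈ (Fin n → L')` is injective and `L'` is countable. -/
def S_Cnt : Prop :=
  ∀ (V V' : Type) [NormedAddCommGroup V] [NormedSpace ℝ V] [FiniteDimensional ℝ V]
    [NormedAddCommGroup V'] [NormedSpace ℝ V'] (L : Set V) (L' : Set V'),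
    Submodule.span ℝ L = ⊤ → L'.Countable → {Λ : V ≃ₗ[ℝ] V' | ∀ v ∈ L, Λ v ∈ L'}.Countable

/-- `I` on the tangent space at `t'`, transported to `t`: `J = τ⁻¹ I τ`. -/
def Jt {m r : ℕ} {b : Fin (r + 1) → ℕ} (Φ : FamD m b) (t t' : Fin (r + 1) → ℂ)
    (v : Ix m b → ℂ) : Ix m b → ℂ :=
  (Φ.τ t t').symm (Complex.I • Φ.τ t t' v)

/-- The pairs `(t, t')` near `(t₀, t₀')` at which the lattice map `Λ` is complex linear. -/
def CL {m r m' r' : ℕ} {b : Fin (r + 1) → ℕ} {b' : Fin (r' + 1) → ℕ} (Φ : FamD m b)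
    (Φ' : FamD m' b') (t₀ : Fin (r + 1) → ℂ) (t₀' : Fin (r' + 1) → ℂ)
    (Λ : (Ix m b → ℂ) ≃ₗ[ℝ] (Ix m' b' → ℂ)) : Set ((Fin (r + 1) → ℂ) × (Fin (r' + 1) → ℂ)) :=
  {x | x.1 ∈ ball t₀ (Φ.ρ t₀) ∧ x.2 ∈ ball t₀' (Φ'.ρ t₀') ∧
    ∀ v, Λ (Jt Φ t₀ x.1 v) = Jt Φ' t₀' x.2 (Λ v)}

/-- **Cls**: `CL` IS RELATIVELY CLOSED. From `S_Inv`. PROOF. `x ↦ Jt Φ t₀ x.1 v` and `x ↦ Jt Φ' t₀' x.2 (Λ v)` are continuous on the open
product `W` of the balls (`FamD.hol` gives continuity of `t' ↦ τ t₀ t' v`; `S_Inv`), `Λ` is continuous (finite dimension). A closed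
subset of the subspace `W` is `W ∩ K`, `K` closed (`ContinuousOn.preimage_isClosed…`, or `isClosed_eq` on the subtype and
`isClosed_induced_iff`). -/
def S_Cls : Prop :=
  ∀ (m r m' r' : ℕ) (b : Fin (r + 1) → ℕ) (b' : Fin (r' + 1) → ℕ) (Φ : FamD m b)
    (Φ' : FamD m' b') (t₀ : Fin (r + 1) → ℂ) (t₀' : Fin (r' + 1) → ℂ)
    (Λ : (Ix m b → ℂ) ≃ₗ[ℝ] (Ix m' b' → ℂ)), Function.Injective t₀ → Function.Injective t₀' →
    ∃ K, IsClosed K ∧ CL Φ Φ' t₀ t₀' Λ = {x | x.1 ∈ ball t₀ (Φ.ρ t₀) ∧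
      x.2 ∈ ball t₀' (Φ'.ρ t₀')} ∩ K

/-- **Nwd**: `CL` HAS NO INTERIOR POINTS. PROOF. Let `(t₁, t₁')` be an interior point. `Coc` at `t₁`: `δ`. For `ε ≤ δ` small all
`(t₂, t₁')`, `t₂ ∈ ball t₁ ε`, are in `CL`. `StmtFA5` at `t₁` (injective by `FamD.dom`) gives such a `t₂` and `v` with
`τ t₁ t₂ (I v) ≠ I τ t₁ t₂ v`. But `Λ (Jt t₀ t₁ w) = Jt' (Λ w) = Λ (Jt t₀ t₂ w)`, so `Jt t₀ t₁ w = Jt t₀ t₂ w` for all `w`; with
`w = (τ t₀ t₁)⁻¹ v` and `τ t₀ t₂ = τ t₁ t₂ ∘ τ t₀ t₁`: `τ t₀ t₂ (Jt t₀ t₁ w) = τ t₁ t₂ (I v)` and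
`τ t₀ t₂ (Jt t₀ t₂ w) = I τ t₁ t₂ v`. -/
def S_Nwd : Prop :=
  StmtFA5 → Coc → ∀ (m r m' r' : ℕ) (b : Fin (r + 1) → ℕ) (b' : Fin (r' + 1) → ℕ) (Φ : FamD m b)
    (Φ' : FamD m' b') (t₀ : Fin (r + 1) → ℂ) (t₀' : Fin (r' + 1) → ℂ)
    (Λ : (Ix m b → ℂ) ≃ₗ[ℝ] (Ix m' b' → ℂ)), Cvb m b → Ncs m b → Function.Injective t₀ →
    interior (CL Φ Φ' t₀ t₀' Λ) = ∅

/-- The pairs `(t, t')` for which the two new parts are isogenous. -/
def Ip {r r' : ℕ} (m : ℕ) (b : Fin (r + 1) → ℕ) (m' : ℕ) (b' : Fin (r' + 1) → ℕ) :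
    Set ((Fin (r + 1) → ℂ) × (Fin (r' + 1) → ℂ)) :=
  {x | Function.Injective x.1 ∧ Function.Injective x.2 ∧
    ∃ φ : (Ix m b → ℂ) ≃ₗ[ℂ] (Ix m' b' → ℂ), φ '' LQ m b x.1 = LQ m' b' x.2}

/-- **Bai**: BAIRE. From `S_Cnt`, `S_Cls`, `S_Nwd`. PROOF. `Φ`, `Φ'` from `StmtFA1`. `LQ`: `τ t t' '' LQ t = LQ t'` on the balls
(from `FamD.latZ`: `LQ = {v | ∃ k ≠ 0, k • v ∈ LZ}`). The open sets `ball t₀ (ρ t₀) ×ˢ ball t₀' (ρ' t₀')`, `(t₀, t₀')` injective,
cover the pairs of injective tuples; countably many suffice (`TopologicalSpace.countable_cover_nhdsWithin`). For each of them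
countably many `Λ` with `Λ (LQ t₀) ⊆ LQ t₀'` (`S_Cnt`, `FamD.spn`, `FamD.cnt`). `(t, t') ∈ Ip` with `φ`:
`Λ = τ' (t₀', t')⁻¹ ∘ φ ∘ τ (t₀, t)` has `(t, t') ∈ CL … Λ`. `CL` is nowhere dense: it is `W ∩ K`, `W` open, `K` closed, without
interior points: an interior point `x` of `closure (W ∩ K) ⊆ K` has a neighbourhood in `K` which meets `W ∩ K`, and near such a
point `W ∩ K` is a neighbourhood. -/
def S_Bai : Prop :=
  StmtFA1 → StmtFA5 → Coc → ∀ (m r m' r' : ℕ) (b : Fin (r + 1) → ℕ) (b' : Fin (r' + 1) → ℕ),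
    Cvb m b → Cvb m' b' → Ncs m b → IsMeagre (Ip m b m' b')

/-- **Opn**: THE BRANCH POINTS AS FUNCTIONS OF `s`. PROOF. Continuous: clear (`s (i j) - s l ≠ 0` on the subtype). Open: see SE/Z/zP.lean:
`k = none`: the restriction of a surjective linear map to an open subset; `k = some l`: the restriction of the surjective
linear map `SEZ.zP_aux.df i l` to the open set of injective `s`, followed by the homeomorphism `SEZ.zP_aux.ih` of the open set
`Un` of the vectors without zero coordinates. -/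
def S_Opn : Prop :=
  ∀ (p r : ℕ) (i : Fin (r + 1) → Fin p) (k : Option (Fin p)), Ok i k →
    (Continuous fun s : {s : Fin p → ℂ // Function.Injective s} => pt s.1 i k) ∧
      IsOpenMap fun s : {s : Fin p → ℂ // Function.Injective s} => pt s.1 i k

/-- **Ku**: KURATOWSKI-ULAM. PROOF. It is enough to consider one nowhere dense closed set, complement `G` open dense. For every nonempty
`V_n` of a countable basis of `Y` the set `π_X (G ∩ (X × V_n))` is open and dense in `X`; for `x` in all of them `G_x` is open and meets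
every `V_n`, so it is dense. (`M ⊆ ⋃ n, N n`, `N n` closed nowhere dense: `isMeagre_iff_countable_union_isNowhereDense`; the fibre
of `M` is contained in the union of the fibres.) -/
def S_Ku : Prop :=
  ∀ (X Y : Type) [TopologicalSpace X] [TopologicalSpace Y] [SecondCountableTopology Y]
    (M : Set (X × Y)), IsMeagre M → IsMeagre {x | ¬ IsMeagre {y | (x, y) ∈ M}}

/-- **Ni**: THE RESULT. From `S_Bai`, `S_Opn`. PROOF. The preimage of the meagre set `Ip` under the continuous open map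
`Prod.map (pt · i k) (pt · i' k')` of the product of the subtypes is meagre (`IsMeagre.preimage_of_isOpenMap`,
`IsOpenMap.prodMap`), and its image in `(Fin p → ℂ) × (Fin p → ℂ)` is meagre (`Topology.IsInducing.isMeagre_image`, as in
SE/Z/zP.lean). `pt s i k` is injective if `s` is. -/
def S_Ni : Prop :=
  StmtFA1 → StmtFA5 → Coc → ∀ (m r m' r' : ℕ) (b : Fin (r + 1) → ℕ) (b' : Fin (r' + 1) → ℕ),
    Cvb m b → Cvb m' b' → Ncs m b → ∀ (p : ℕ) (i : Fin (r + 1) → Fin p) (k : Option (Fin p))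
    (i' : Fin (r' + 1) → Fin p) (k' : Option (Fin p)), Ok i k → Ok i' k' →
    IsMeagre {x : (Fin p → ℂ) × (Fin p → ℂ) | Function.Injective x.1 ∧
      Function.Injective x.2 ∧ ∃ φ : (Ix m b → ℂ) ≃ₗ[ℂ] (Ix m' b' → ℂ),
        φ '' LQ m b (pt x.1 i k) = LQ m' b' (pt x.2 i' k')}

end TATE.NI
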